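import Pool.Agent.Helper29.UG.Props

/-!
# MP_b55b7c_an: packet UG-App (calculus of approximation by `u₀ y + u₁ (1 - y)`)
-/

open scoped ENNReal NNReal InnerProductSpace ComplexOrder
open Filter Topology

attribute [-instance] CStarMatrix.instAlgebra CStarMatrix.instModule CStarMatrix.instSMul
  CStarMatrix.instMulAction CStarMatrix.instDistribMulAction

noncomputable section
namespace RC
universe u

namespace UGApp31

variable {A : Type u} [CStarAlgebra A] [PartialOrder A] [StarOrderedRing A]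
  {G : Type} {α : G → A ≃⋆ₐ[ℂ] A} {Λ : Type u} {l : Filter Λ}

theorem nul_congr {x x' : Λ → A} (h : Nul l α x) (e : ∀ t, x' t = x t) : Nul l α x' := by
  have : x' = x := funext e
  rw [this]; exact h

theorem nul_add (hN : N2P.{u}) {x x' : Λ → A} (h : Nul l α x) (h' : Nul l α x') :
    Nul l α fun t => x t + x' t := by
  intro ε hε
  filter_upwards [h (ε / 2) (by linarith), h' (ε / 2) (by linarith)] with t h1 h2 φ hφ
  have := ((hN A φ).2.2.1 (x t) (x' t)).1
  have a1 := h1 φ hφ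
  have a2 := h2 φ hφ
  linarith

theorem nul_sub (hN : N2P.{u}) {x x' : Λ → A} (h : Nul l α x) (h' : Nul l α x') :
    Nul l α fun t => x t - x' t := by
  intro ε hε
  filter_upwards [h (ε / 2) (by linarith), h' (ε / 2) (by linarith)] with t h1 h2 φ hφ
  have := ((hN A φ).2.2.1 (x t) (x' t)).2.1
  have a1 := h1 φ hφ
  have a2 := h2 φ hφ
  linarith

theorem nul_star (hN : N2P.{u}) {x : Λ → A} (h : Nul l α x) :
    Nul l α fun t => star (x t) := by
  intro ε hε
  filter_upwards [h ε hε] with t h1 φ hφ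
  rw [((hN A φ).1 (x t)).2.2.2.2.1]
  exact h1 φ hφ

theorem nul_left (hN : N2P.{u}) {z x : Λ → A} (C : ℝ) (hz : ∀ t, ‖z t‖ ≤ C) (h : Nul l α x) :
    Nul l α fun t => z t * x t := by
  intro ε hε
  have hC : 0 < |C| + 1 := by positivity
  filter_upwards [h (ε / (|C| + 1)) (by positivity)] with t h1 φ hφ
  have e1 := ((hN A φ).2.2.1 (z t) (x t)).2.2.1
  have e2 := h1 φ hφ
  have e3 := ((hN A φ).1 (x t)).1
  calc n2 φ (z t * x t) ≤ ‖z t‖ * n2 φ (x t) := e1
    _ ≤ (|C| + 1) * (ε / (|C| + 1)) := by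
        refine mul_le_mul ?_ e2 e3 hC.le
        exact (hz t).trans ((le_abs_self C).trans (by linarith))
    _ = ε := by field_simp

theorem nul_right (hN : N2P.{u}) {z x : Λ → A} (C : ℝ) (hz : ∀ t, ‖z t‖ ≤ C) (h : Nul l α x) :
    Nul l α fun t => x t * z t := by
  intro ε hε
  have hC : 0 < |C| + 1 := by positivity
  filter_upwards [h (ε / (|C| + 1)) (by positivity)] with t h1 φ hφ
  have e1 := ((hN A φ).2.2.1 (x t) (z t)).2.2.2.1
  have e2 := h1 φ hφ
  have e3 := ((hN A φ).1 (x t)).1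
  calc n2 φ (x t * z t) ≤ n2 φ (x t) * ‖z t‖ := e1
    _ ≤ (ε / (|C| + 1)) * (|C| + 1) := by
        refine mul_le_mul e2 ?_ (norm_nonneg _) (by positivity)
        exact (hz t).trans ((le_abs_self C).trans (by linarith))
    _ = ε := by field_simp

theorem nul_zero (hN : N2P.{u}) : Nul l α fun _ => (0 : A) := by
  intro ε hε
  refine Eventually.of_forall fun t φ hφ => ?_
  have := ((hN A φ).1 (0 : A)).2.2.1
  rw [norm_zero] at this
  linarith

theorem norm_le_one' {y : A} (h0 : 0 ≤ y) (h1 : y ≤ 1) : ‖y‖ ≤ 1 :=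
  (CStarAlgebra.norm_le_one_iff_of_nonneg y h0).2 h1

theorem norm_y {y : Λ → A} (hy : HNet l α y) (t : Λ) : ‖y t‖ ≤ 1 :=
  norm_le_one' (hy.nonneg t) (hy.le_one t)

theorem norm_y' {y : Λ → A} (hy : HNet l α y) (t : Λ) : ‖1 - y t‖ ≤ 1 :=
  norm_le_one' (sub_nonneg.2 (hy.le_one t)) (sub_le_self _ (hy.nonneg t))

theorem star_y {y : Λ → A} (hy : HNet l α y) (t : Λ) : star (y t) = y t :=
  (IsSelfAdjoint.of_nonneg (hy.nonneg t))

theorem bd_X {y : Λ → A} (hy : HNet l α y) (u₀ u₁ : A) (t : Λ) :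
    ‖u₀ * y t + u₁ * (1 - y t)‖ ≤ ‖u₀‖ + ‖u₁‖ := by
  refine (norm_add_le _ _).trans (add_le_add ?_ ?_)
  · refine (norm_mul_le _ _).trans ?_
    have := mul_le_mul_of_nonneg_left (norm_y hy t) (norm_nonneg u₀)
    linarith
  · refine (norm_mul_le _ _).trans ?_
    have := mul_le_mul_of_nonneg_left (norm_y' hy t) (norm_nonneg u₁)
    linarith

theorem appP (hN : N2P.{u}) : AppP.{u} := by
  intro A _ _ _ G α Λ l y hy
  have hc0 : ∀ (c : A) (t : Λ), ‖(fun _ : Λ => c) t‖ ≤ ‖c‖ := fun c t => le_rfl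
  refine ⟨?_, ?_, ?_, ?_⟩
  · -- constants
    intro w
    refine ⟨⟨‖w‖, fun t => le_rfl⟩, nul_congr (nul_zero hN) fun t => ?_⟩
    noncomm_ring
  · intro x x' u₀ u₁ v₀ v₁ hx hx'
    obtain ⟨⟨C, hC⟩, h⟩ := hx
    obtain ⟨⟨C', hC'⟩, h'⟩ := hx'
    refine ⟨⟨⟨C * C', fun t => ?_⟩, ?_⟩, ⟨⟨C + C', fun t => ?_⟩, ?_⟩, ⟨⟨C + C', fun t => ?_⟩, ?_⟩,
      ⟨⟨C, fun t => ?_⟩, ?_⟩⟩
    · refine (norm_mul_le _ _).trans ?_
      exact mul_le_mul (hC t) (hC' t) (norm_nonneg _) ((norm_nonneg _).trans (hC t))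
    · -- product
      have p1 := nul_right hN C' hC' h
      have p2 := nul_left hN _ (bd_X hy u₀ u₁) h'
      have p3 := nul_left hN _ (hc0 (u₀ - u₁)) (nul_right hN 1 (norm_y hy) (hy.comm v₀))
      have p4 := nul_left hN _ (hc0 (u₀ - u₁)) (nul_right hN 1 (norm_y' hy) (hy.comm v₁))
      have p5 := nul_left hN _ (hc0 ((u₀ - u₁) * (v₀ - v₁))) hy.idem
      have p6 := nul_sub hN (nul_add hN (nul_add hN (nul_add hN p1 p2) p3) p4) p5
      refine nul_congr p6 fun t => ?_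
      noncomm_ring
    · exact (norm_add_le _ _).trans (add_le_add (hC t) (hC' t))
    · refine nul_congr (nul_add hN h h') fun t => ?_
      noncomm_ring
    · exact (norm_sub_le _ _).trans (add_le_add (hC t) (hC' t))
    · refine nul_congr (nul_sub hN h h') fun t => ?_
      noncomm_ring
    · rw [norm_star]; exact hC t
    · refine nul_congr (nul_sub hN (nul_add hN (nul_star hN h) (hy.comm (star u₀)))
        (hy.comm (star u₁))) fun t => ?_
      simp only [star_sub, star_add, star_mul, star_y hy t, star_one]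
      noncomm_ring
  · intro u₀ u₁
    refine ⟨⟨‖u₀‖ + ‖u₁‖, fun t => ?_⟩, ?_⟩
    · refine (norm_add_le _ _).trans (add_le_add ?_ ?_)
      · calc ‖y t * u₀ * y t‖ ≤ ‖y t * u₀‖ * ‖y t‖ := norm_mul_le _ _
          _ ≤ (‖y t‖ * ‖u₀‖) * ‖y t‖ :=
              mul_le_mul_of_nonneg_right (norm_mul_le _ _) (norm_nonneg _)
          _ ≤ (1 * ‖u₀‖) * 1 := by
              refine mul_le_mul ?_ (norm_y hy t) (norm_nonneg _) (by positivity)
              exact mul_le_mul_of_nonneg_right (norm_y hy t) (norm_nonneg _)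
          _ = ‖u₀‖ := by ring
      · calc ‖(1 - y t) * u₁ * (1 - y t)‖ ≤ ‖(1 - y t) * u₁‖ * ‖1 - y t‖ := norm_mul_le _ _
          _ ≤ (‖1 - y t‖ * ‖u₁‖) * ‖1 - y t‖ :=
              mul_le_mul_of_nonneg_right (norm_mul_le _ _) (norm_nonneg _)
          _ ≤ (1 * ‖u₁‖) * 1 := by
              refine mul_le_mul ?_ (norm_y' hy t) (norm_nonneg _) (by positivity)
              exact mul_le_mul_of_nonneg_right (norm_y' hy t) (norm_nonneg _)
          _ = ‖u₁‖ := by ring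
    · have p1 := nul_right hN 1 (norm_y hy) (hy.comm u₀)
      have p2 := nul_left hN _ (hc0 u₀) hy.idem
      have p3 := nul_right hN 1 (norm_y' hy) (hy.comm u₁)
      have p4 := nul_left hN _ (hc0 u₁) hy.idem
      refine nul_congr (nul_sub hN (nul_sub hN (nul_sub hN p1 p2) p3) p4) fun t => ?_
      noncomm_ring
  · intro x u₀ u₁ hx ε hε
    obtain ⟨_, h⟩ := hx
    filter_upwards [h (ε / 3) (by linarith), hy.half u₀ (ε / 3) (by linarith),
      hy.half u₁ (ε / 3) (by linarith)] with t h1 h2 h3 φ hφ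
    have a1 := h1 φ hφ
    have a2 := h2 φ hφ
    have a3 := h3 φ hφ
    have a4 := ((hN A φ).1 (x t - (u₀ * y t + u₁ * (1 - y t)))).2.2.2.1
    have e : φ.φ (x t) - (φ.φ u₀ + φ.φ u₁) / 2 =
        φ.φ (x t - (u₀ * y t + u₁ * (1 - y t))) + (φ.φ (y t * u₀) - φ.φ u₀ / 2) -
          (φ.φ (y t * u₁) - φ.φ u₁ / 2) := by
      have e1 : φ.φ (x t - (u₀ * y t + u₁ * (1 - y t))) =
          φ.φ (x t) - (φ.φ (y t * u₀) + (φ.φ u₁ - φ.φ (y t * u₁))) := by
        rw [map_sub, map_add, mul_sub, mul_one, map_sub, φ.trace u₀, φ.trace u₁]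
      rw [e1]; ring
    rw [e]
    refine (norm_sub_le _ _).trans ?_
    have e5 := norm_add_le (φ.φ (x t - (u₀ * y t + u₁ * (1 - y t)))) (φ.φ (y t * u₀) - φ.φ u₀ / 2)
    linarith

end UGApp31

/-- Packet UG-App. -/
theorem ugAppP (hN : N2P.{u}) : AppP.{u} := UGApp31.appP hN

end RC
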